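import Mathlib
import Pool.Agent.Q182.W1
import Pool.Agent.Q182.SigmaGdelta

/-!
# A non-metrizable compact abelian group determined by all its dense omega-bounded subgroups
-/

namespace Pool.Agent.Results.MP_04f724_gt.NonMetrizable

open Filter Topology Set

/-- `H` is `ω`-bounded: the closure in `H` of every countable subset of `H` is compact. -/
def IsOmegaBounded (H : Type) [TopologicalSpace H] : Prop :=
  ∀ D : Set H, D.Countable → IsCompact (closure D)

/-- The restriction map `Ĝ → Ĥ`, `χ ↦ χ|_H`. -/
def restr {G : Type} [AddCommGroup G] [TopologicalSpace G] (H : AddSubgroup G)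
    (χ : G →ₜ+ UnitAddCircle) : H →ₜ+ UnitAddCircle :=
  χ.comp ⟨H.subtype, continuous_subtype_val⟩

/-- `H` determines `G`: the restriction map `Ĝ → Ĥ` (a group homomorphism) is a homeomorphism,
where the character groups carry the compact-open topology. -/
def Determines {G : Type} [AddCommGroup G] [TopologicalSpace G] (H : AddSubgroup G) : Prop :=
  IsHomeomorph (restr H)

open Q182

/-- The compact group `(ℤ/2)^{ω₁}`. -/
abbrev Cube : Type := W1 → ZMod 2

/-- Elements of order two of the circle. -/
def T2 : Set UnitAddCircle := {t | (2 : ℕ) • t = 0 ∧ t ≠ 0}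

lemma finite_T2 : T2.Finite :=
  (AddCircle.finite_torsion (1 : ℝ) (n := 2) (by norm_num)).subset fun _ h => h.1

lemma two_smul_zero (x : Cube) : (2 : ℕ) • x = 0 := by
  ext i
  show (2 : ℕ) • x i = 0
  generalize x i = z
  revert z
  decide

variable {H : AddSubgroup Cube}

lemma dense_finset (hd : Dense (H : Set Cube)) (F : Finset W1) (y : Cube) :
    ∃ h ∈ H, ∀ i ∈ F, h i = y i := by
  have hopen : IsOpen {z : Cube | ∀ i ∈ F, z i = y i} := by
    have : {z : Cube | ∀ i ∈ F, z i = y i} = ⋂ i ∈ F, (fun z : Cube => z i) ⁻¹' {y i} := by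
      ext z
      simp
    rw [this]
    exact isOpen_biInter_finset fun i _ => (isOpen_discrete {y i}).preimage (continuous_apply i)
  obtain ⟨z, hz, hzH⟩ := hd.inter_open_nonempty _ hopen ⟨y, fun i _ => rfl⟩
  exact ⟨z, hzH, hz⟩

/-- The closure in `Cube` of a countable subset of `H` is contained in `H`. -/
lemma closure_subset (ho : IsOmegaBounded H) {D : Set Cube} (hD : D.Countable)
    (hDH : D ⊆ (H : Set Cube)) : closure D ⊆ (H : Set Cube) := by
  have h1 : ((Subtype.val : H → Cube) ⁻¹' D).Countable :=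
    hD.preimage_of_injOn Subtype.val_injective.injOn
  have h2 := ho _ h1
  have h3 : IsClosed (Subtype.val '' closure ((Subtype.val : H → Cube) ⁻¹' D)) :=
    (h2.image continuous_subtype_val).isClosed
  have h4 : D ⊆ Subtype.val '' closure ((Subtype.val : H → Cube) ⁻¹' D) := by
    intro x hx
    exact ⟨⟨x, hDH hx⟩, subset_closure hx, rfl⟩
  intro x hx
  obtain ⟨y, -, rfl⟩ := closure_minimal h4 h3 hx
  exact y.2

lemma dense_countable (hd : Dense (H : Set Cube)) (ho : IsOmegaBounded H) {C : Set W1}
    (hC : C.Countable) (y : Cube) : ∃ h ∈ H, ∀ i ∈ C, h i = y i := by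
  classical
  choose h hH hh using fun F : Finset W1 => dense_finset hd F y
  let D : Set Cube := h '' {F : Finset W1 | (F : Set W1) ⊆ C}
  have hDc : D.Countable := (Q182.SigmaProd.fin_countable hC).image h
  have hDH : D ⊆ (H : Set Cube) := by
    rintro _ ⟨F, -, rfl⟩
    exact hH F
  have hK : IsCompact (closure D) := isClosed_closure.isCompact
  have hne := hK.inter_iInter_nonempty (fun i : C => {z : Cube | z i = y i})
    (fun i => isClosed_eq (continuous_apply i.1) continuous_const) (by
      intro u
      refine ⟨h (u.image Subtype.val), subset_closure ⟨_, ?_, rfl⟩, ?_⟩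
      · intro i hi
        obtain ⟨j, -, rfl⟩ := Finset.mem_image.1 (Finset.mem_coe.1 hi)
        exact j.2
      · simp only [mem_iInter]
        intro i hi
        exact hh _ _ (Finset.mem_image_of_mem _ hi))
  obtain ⟨z, hz1, hz2⟩ := hne
  refine ⟨z, closure_subset ho hDc hDH hz1, fun i hi => ?_⟩
  exact mem_iInter.1 hz2 ⟨i, hi⟩

/-- The family `h_α`. -/
lemma exists_family (hd : Dense (H : Set Cube)) (ho : IsOmegaBounded H) :
    ∃ h : W1 → Cube, (∀ α, h α ∈ H) ∧ (∀ α, h α α = 1) ∧ (∀ α β, β < α → h α β = 0) := by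
  classical
  have h1 : ∀ α : W1, ∃ h ∈ H, ∀ i ∈ Iic α, h i = (Pi.single α 1 : Cube) i := fun α =>
    dense_countable hd ho (W1.countable_Iic α) _
  choose h hH hh using h1
  refine ⟨h, hH, fun α => ?_, fun α β hβ => ?_⟩
  · rw [hh α α (self_mem_Iic), Pi.single_eq_same]
  · rw [hh α β hβ.le, Pi.single_eq_of_ne hβ.ne]

/-- The compact set used to show that the dual of `H` is discrete. -/
lemma exists_compact (ho : IsOmegaBounded H) (h : W1 → Cube) (hH : ∀ α, h α ∈ H)
    (h0 : ∀ α β, β < α → h α β = 0) : closure (range h) ⊆ (H : Set Cube) := by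
  intro x hx
  by_cases hx0 : x = 0
  · rw [hx0]
    exact H.zero_mem
  obtain ⟨β, hβ⟩ : ∃ β, x β ≠ 0 := by
    by_contra hcon
    push Not at hcon
    exact hx0 (funext hcon)
  have hc : Continuous (fun z : Cube => z β) := continuous_apply β
  have hopen : IsOpen {z : Cube | z β ≠ 0} :=
    (isOpen_discrete {z : ZMod 2 | z ≠ 0}).preimage hc
  have h2 : x ∈ closure (h '' Iic β) := by
    refine closure_mono ?_ (hopen.inter_closure ⟨hβ, hx⟩)
    rintro _ ⟨hz, α, rfl⟩
    refine ⟨α, ?_, rfl⟩
    by_contra hcon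
    exact hz (h0 α β (not_le.1 hcon))
  exact closure_subset ho ((W1.countable_Iic β).image h) (by
    rintro _ ⟨α, -, rfl⟩
    exact hH α) h2

/-- Every continuous character of a subgroup of the cube kills the elements vanishing on a
suitable finite set. -/
lemma char_finite (χ : H →ₜ+ UnitAddCircle) :
    ∃ F : Finset W1, ∀ x : H, (∀ i ∈ F, x.1 i = 0) → χ x = 0 := by
  have h1 : T2ᶜ ∈ 𝓝 (χ 0) := by
    rw [map_zero]
    exact finite_T2.isClosed.isOpen_compl.mem_nhds (fun h => h.2 rfl)
  have h2 : χ ⁻¹' T2ᶜ ∈ 𝓝 (0 : H) := χ.continuous_toFun.continuousAt.preimage_mem_nhds h1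
  rw [nhds_subtype, mem_comap] at h2
  obtain ⟨V, hV, hVU⟩ := h2
  obtain ⟨F, hF⟩ := Q182.SigmaProd.cube_mem_nhds hV
  refine ⟨F, fun x hx => ?_⟩
  have h3 : χ x ∉ T2 := hVU (hF x.1 (fun i hi => by rw [hx i hi]; rfl))
  by_contra h4
  refine h3 ⟨?_, h4⟩
  rw [← map_nsmul]
  have : (2 : ℕ) • x = 0 := Subtype.ext (two_smul_zero x.1)
  rw [this, map_zero]

lemma char_zero (h : W1 → Cube) (hH : ∀ α, h α ∈ H) (h1 : ∀ α, h α α = 1)
    (h0 : ∀ α β, β < α → h α β = 0) (χ : H →ₜ+ UnitAddCircle)
    (hχ : ∀ α, χ ⟨h α, hH α⟩ = 0) : χ = 0 := by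
  classical
  obtain ⟨F, hF⟩ := char_finite χ
  have key : ∀ F : Finset W1, ∀ x : H, ∃ y : H, (∀ i ∈ F, y.1 i = 0) ∧ χ x = χ y := by
    intro F
    induction F using Finset.induction_on_max with
    | empty => exact fun x => ⟨x, by simp, rfl⟩
    | insert a F ha ih =>
      intro x
      obtain ⟨y, hy, hxy⟩ := ih x
      by_cases hya : y.1 a = 0
      · refine ⟨y, fun i hi => ?_, hxy⟩
        rcases Finset.mem_insert.1 hi with rfl | hi
        · exact hya
        · exact hy i hi
      · have hya1 : y.1 a = 1 := by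
          revert hya
          generalize y.1 a = z
          revert z
          decide
        refine ⟨y - ⟨h a, hH a⟩, fun i hi => ?_, ?_⟩
        · show y.1 i - h a i = 0
          rcases Finset.mem_insert.1 hi with rfl | hi
          · rw [hya1, h1, sub_self]
          · rw [hy i hi, h0 a i (ha i hi), sub_self]
        · rw [map_sub, hχ, sub_zero, hxy]
  ext x
  obtain ⟨y, hy, hxy⟩ := key F x
  rw [hxy, hF y hy]
  rfl

/-- The dual group of a dense `ω`-bounded subgroup of the cube is discrete. -/
lemma discrete_dual (hd : Dense (H : Set Cube)) (ho : IsOmegaBounded H) :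
    DiscreteTopology (H →ₜ+ UnitAddCircle) := by
  obtain ⟨h, hH, h1, h0⟩ := exists_family hd ho
  have hcl := exists_compact ho h hH h0
  have hK : IsCompact ((Subtype.val : H → Cube) ⁻¹' closure (range h)) := by
    have hi : IsInducing (Subtype.val : H → Cube) := IsInducing.subtypeVal
    refine hi.isCompact_iff.2 ?_
    have heq : (Subtype.val : H → Cube) '' ((Subtype.val : H → Cube) ⁻¹' closure (range h)) =
        closure (range h) := by
      ext x
      constructor
      · rintro ⟨y, hy, rfl⟩
        exact hy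
      · intro hx
        exact ⟨⟨x, hcl hx⟩, hx, rfl⟩
    have hc : IsCompact (closure (range h)) := isClosed_closure.isCompact
    have hc2 : IsCompact ((Subtype.val : H → Cube) '' ((Subtype.val : H → Cube) ⁻¹'
        closure (range h))) := by
      rw [heq]
      exact hc
    exact hc2
  apply discreteTopology_of_isOpen_singleton_zero
  have hW : IsOpen {χ : H →ₜ+ UnitAddCircle |
      MapsTo χ ((Subtype.val : H → Cube) ⁻¹' closure (range h)) T2ᶜ} := by
    have := ContinuousMap.isOpen_setOfPred_mapsTo hK finite_T2.isClosed.isOpen_compl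
    exact this.preimage (ContinuousAddMonoidHom.isInducing_toContinuousMap H UnitAddCircle).continuous
  convert hW using 1
  ext χ
  constructor
  · rintro rfl x _
    exact fun h => h.2 rfl
  · intro hχ
    refine char_zero h hH h1 h0 χ fun α => ?_
    by_contra h4
    refine hχ (x := ⟨h α, hH α⟩) (subset_closure ⟨α, rfl⟩) ⟨?_, h4⟩
    rw [← map_nsmul]
    have : (2 : ℕ) • (⟨h α, hH α⟩ : H) = 0 := Subtype.ext (two_smul_zero (h α))
    rw [this, map_zero]

lemma restr_surjective (hd : Dense (H : Set Cube)) : Function.Surjective (restr H) := by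
  classical
  intro χ
  obtain ⟨F, hF⟩ := char_finite χ
  choose s hs hs' using fun w : (F → ZMod 2) =>
    dense_finset hd F (fun i => if h : i ∈ F then w ⟨i, h⟩ else 0)
  have hs'' : ∀ w : F → ZMod 2, ∀ i : F, s w i = w i := fun w i => by
    rw [hs' w i i.2, dif_pos i.2]
  let f : (F → ZMod 2) →+ UnitAddCircle :=
    { toFun := fun w => χ ⟨s w, hs w⟩
      map_zero' := hF _ fun i hi => hs'' 0 ⟨i, hi⟩
      map_add' := fun a b => by
        rw [← map_add, ← sub_eq_zero, ← map_sub]
        apply hF
        intro i hi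
        show s (a + b) i - (s a i + s b i) = 0
        rw [hs'' (a + b) ⟨i, hi⟩, hs'' a ⟨i, hi⟩, hs'' b ⟨i, hi⟩, Pi.add_apply, sub_self] }
  let r : Cube →+ (F → ZMod 2) :=
    { toFun := fun x i => x i
      map_zero' := rfl
      map_add' := fun _ _ => rfl }
  have hr : Continuous r := continuous_pi fun i => continuous_apply i.1
  refine ⟨⟨f.comp r, (continuous_of_discreteTopology (f := f)).comp hr⟩, ?_⟩
  ext x
  show χ ⟨s (r x.1), hs _⟩ = χ x
  rw [← sub_eq_zero, ← map_sub]
  apply hF
  intro i hi
  show s (r x.1) i - x.1 i = 0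
  rw [hs'' (r x.1) ⟨i, hi⟩]
  exact sub_self _

lemma restr_injective (hd : Dense (H : Set Cube)) : Function.Injective (restr H) := by
  intro χ ψ h
  apply DFunLike.coe_injective
  apply Continuous.ext_on hd χ.continuous_toFun ψ.continuous_toFun
  intro x hx
  exact DFunLike.congr_fun h ⟨x, hx⟩

/-- There is a non-metrizable compact Hausdorff abelian group `G` such that every dense
`ω`-bounded subgroup of `G` determines `G`. -/
theorem result :
    ∃ (G : Type) (_ : AddCommGroup G) (_ : TopologicalSpace G),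
      IsTopologicalAddGroup G ∧ CompactSpace G ∧ T2Space G ∧ ¬ TopologicalSpace.MetrizableSpace G ∧
      ∀ H : AddSubgroup G, Dense (H : Set G) → IsOmegaBounded H → Determines H := by
  refine ⟨Cube, inferInstance, inferInstance, inferInstance, inferInstance, inferInstance, ?_, ?_⟩
  · intro hm
    obtain ⟨C, hC, h⟩ := Q182.SigmaProd.gdelta_determined (IsGδ.singleton (0 : Cube)) rfl
    obtain ⟨i, hi⟩ : ∃ i, i ∉ C := by
      by_contra hcon
      push Not at hcon
      exact W1.not_countable (countable_univ_iff.1 (hC.mono fun i _ => hcon i))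
    have h1 := h (Pi.single i 1) fun j hj => by
      rw [Pi.single_eq_of_ne]
      · rfl
      · rintro rfl
        exact hi hj
    have h2 := congrFun (mem_singleton_iff.1 h1) i
    rw [Pi.single_eq_same] at h2
    have h3 : (1 : ZMod 2) = 0 := h2
    exact absurd h3 (by decide)
  · intro H hd ho
    have := discrete_dual hd ho
    refine ⟨?_, fun U _ => isOpen_discrete _, restr_injective hd, restr_surjective hd⟩
    exact ContinuousAddMonoidHom.continuous_comp_left _

end Pool.Agent.Results.MP_04f724_gt.NonMetrizable
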